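import Mathlib

set_option autoImplicit false

namespace Pool.Agent.Results.MP_4d31e4_pr.Q2No

open MeasureTheory Filter Set
open scoped ENNReal Classical

/-- `μ` is the law of simple random walk on `G` started at a uniform vertex -/
def IsSRW {N : ℕ} (G : SimpleGraph (Fin N)) (μ : Measure (ℕ → Fin N)) : Prop :=
  IsProbabilityMeasure μ ∧ (∀ v, μ {ω | ω 0 = v} = (N : ℝ≥0∞)⁻¹) ∧
    ∀ (t : ℕ) (p : Fin (t + 1) → Fin N) (v : Fin N),
      μ {ω | (∀ i : Fin (t + 1), ω i = p i) ∧ ω (t + 1) = v} =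
        μ {ω | ∀ i : Fin (t + 1), ω i = p i} *
          if G.Adj (p (Fin.last t)) v then
            (((G.neighborSet (p (Fin.last t))).ncard : ℝ≥0∞))⁻¹ else 0

/-- cover time of `m` paths -/
noncomputable def D {N m : ℕ} (ω : Fin m → ℕ → Fin N) : ℕ∞ :=
  ⨅ (t : ℕ) (_ : ∀ v, ∃ j, ∃ i ≤ t, ω j i = v), (t : ℕ∞)

lemma stat {N : ℕ} {G : SimpleGraph (Fin N)} {μ : Measure (ℕ → Fin N)} (h : IsSRW G μ)
    (htr : ∀ u v, ∃ φ : G ≃g G, φ v = u) (t : ℕ) : ∀ v, μ {ω | ω t = v} ≤ (N : ℝ≥0∞)⁻¹ := by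
  induction t with
  | zero => exact fun v => (h.2.1 v).le
  | succ t ih =>
    intro v
    let r : (ℕ → Fin N) → (Fin (t + 1) → Fin N) := fun ω i => ω i
    have hr : Measurable r := by fun_prop
    let f : Fin N → ℝ≥0∞ := fun u =>
      if G.Adj u v then (((G.neighborSet u).ncard : ℝ≥0∞))⁻¹ else 0
    have hE : MeasurableSet {ω : ℕ → Fin N | ω (t + 1) = v} :=
      measurable_pi_apply (X := fun _ : ℕ => Fin N) (t + 1) (measurableSet_singleton v)
    have e1 : μ {ω | ω (t + 1) = v} = ∑ p : Fin (t + 1) → Fin N, f (p (Fin.last t)) * μ.map r {p} := by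
      have := sum_measure_preimage_singleton (μ := μ.restrict {ω | ω (t + 1) = v})
        (Finset.univ : Finset (Fin (t + 1) → Fin N)) (f := r)
        (fun p _ => hr (measurableSet_singleton p))
      rw [Finset.coe_univ, preimage_univ, Measure.restrict_apply_univ] at this
      rw [← this]
      refine Finset.sum_congr rfl fun p _ => ?_
      rw [Measure.restrict_apply (hr (measurableSet_singleton p)),
        Measure.map_apply hr (measurableSet_singleton p), mul_comm]
      have e : r ⁻¹' {p} = {ω | ∀ i : Fin (t + 1), ω i = p i} := by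
        ext ω; simp [r, funext_iff]
      rw [e]
      exact h.2.2 t p v
    have e2 : ∑ p : Fin (t + 1) → Fin N, f (p (Fin.last t)) * μ.map r {p} =
        ∑ u, f u * μ {ω | ω t = u} := by
      rw [← lintegral_fintype, lintegral_map (measurable_of_countable _) hr]
      have := lintegral_map (μ := μ) (measurable_of_countable f)
        (measurable_pi_apply (X := fun _ : ℕ => Fin N) t)
      refine Eq.trans this.symm ?_
      rw [lintegral_fintype]
      refine Finset.sum_congr rfl fun u _ => ?_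
      rw [Measure.map_apply (measurable_pi_apply t) (measurableSet_singleton u)]
      rfl
    have hdeg : ∀ u, (G.neighborSet u).ncard = (G.neighborSet v).ncard := by
      intro u
      obtain ⟨φ, rfl⟩ := htr u v
      exact (Nat.card_congr (φ.mapNeighborSet v)).symm
    rw [e1, e2]
    calc ∑ u, f u * μ {ω | ω t = u} ≤ ∑ u, f u * (N : ℝ≥0∞)⁻¹ :=
          Finset.sum_le_sum fun u _ => mul_le_mul_right (ih u) _
      _ = (∑ u, f u) * (N : ℝ≥0∞)⁻¹ := by rw [Finset.sum_mul]
      _ ≤ 1 * (N : ℝ≥0∞)⁻¹ := by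
          refine mul_le_mul_left ?_ _
          simp only [f, hdeg]
          rw [← Finset.sum_filter, Finset.sum_const, nsmul_eq_mul]
          have : (Finset.univ.filter (fun u => G.Adj u v)).card = (G.neighborSet v).ncard := by
            rw [← Set.ncard_coe_finset]
            congr 1
            ext u; simp [G.adj_comm]
          rw [this]
          exact ENNReal.mul_inv_le_one _
      _ = _ := one_mul _

lemma hit {N : ℕ} {G : SimpleGraph (Fin N)} {μ : Measure (ℕ → Fin N)} (h : IsSRW G μ)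
    (htr : ∀ u v, ∃ φ : G ≃g G, φ v = u) (k : ℕ) (v : Fin N) :
    μ {ω | ∃ i ≤ k, ω i = v} ≤ (k + 1 : ℝ≥0∞) / N := by
  have : {ω : ℕ → Fin N | ∃ i ≤ k, ω i = v} = ⋃ i ∈ Finset.range (k + 1), {ω | ω i = v} := by
    ext ω; simp
  rw [this]
  refine (measure_biUnion_finset_le _ _).trans ?_
  refine (Finset.sum_le_sum fun i _ => stat h htr i v).trans ?_
  simp [div_eq_mul_inv]

def Cov (N k m : ℕ) : Set (Fin m → ℕ → Fin N) := {ω | ∀ v, ∃ j, ∃ i ≤ k, ω j i = v}

lemma mCov (N k m : ℕ) : MeasurableSet (Cov N k m) := by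
  unfold Cov
  refine measurableSet_setOfPred.2 (Measurable.forall fun v => Measurable.exists fun j =>
    Measurable.exists fun i => Measurable.and measurable_const ?_)
  exact measurableSet_setOfPred.1
    ((by fun_prop : Measurable fun ω : Fin m → ℕ → Fin N => ω j i) (measurableSet_singleton v))

lemma D_le {N m : ℕ} (ω : Fin m → ℕ → Fin N) (k : ℕ) : D ω ≤ k ↔ ω ∈ Cov N k m := by
  constructor
  · intro h
    by_contra hc
    have : ((k + 1 : ℕ) : ℕ∞) ≤ D ω := by
      refine le_iInf₂ fun t ht => ?_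
      rw [Nat.cast_le]
      by_contra hlt
      exact hc fun v => by
        obtain ⟨j, i, hi, e⟩ := ht v
        exact ⟨j, i, by omega, e⟩
    have := this.trans h
    rw [Nat.cast_le] at this
    omega
  · exact fun h => iInf₂_le k h

lemma inc {N : ℕ} {G : SimpleGraph (Fin N)} {μ : Measure (ℕ → Fin N)} (h : IsSRW G μ)
    (htr : ∀ u v, ∃ φ : G ≃g G, φ v = u) (k m : ℕ) :
    Measure.pi (fun _ : Fin (m + 1) => μ) (Cov N k (m + 1)) ≤
      Measure.pi (fun _ : Fin m => μ) (Cov N k m) + (k + 1 : ℝ≥0∞) / N := by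
  have := h.1
  have hp := (measurePreserving_piFinSuccAbove (fun _ : Fin (m + 1) => μ) 0).symm
  rw [← hp.measure_preimage (mCov N k (m + 1)).nullMeasurableSet,
    Measure.prod_apply_symm (hp.measurable (mCov N k (m + 1)))]
  refine (lintegral_mono (g := fun w => (Cov N k m).indicator 1 w + (k + 1 : ℝ≥0∞) / N)
    fun w => ?_).trans ?_
  · by_cases hw : w ∈ Cov N k m
    · simp only [indicator_of_mem hw, Pi.one_apply]
      exact prob_le_one.trans le_self_add
    · simp only [indicator_of_notMem hw, zero_add]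
      obtain ⟨v, hv⟩ := not_forall.1 hw
      refine (measure_mono fun a ha => ?_).trans (hit h htr k v)
      obtain ⟨j, i, hi, e⟩ := ha v
      refine Fin.cases (fun e => ⟨i, hi, ?_⟩) (fun j e => absurd ⟨j, i, hi, ?_⟩ hv) j e
      · simpa [MeasurableEquiv.piFinSuccAbove] using e
      · simpa [MeasurableEquiv.piFinSuccAbove] using e
  · rw [lintegral_add_right _ measurable_const, lintegral_indicator_one (mCov N k m)]
    simp

lemma big {N : ℕ} {G : SimpleGraph (Fin N)} {μ : Measure (ℕ → Fin N)} (h : IsSRW G μ) (k : ℕ) :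
    ∃ m, 2⁻¹ ≤ Measure.pi (fun _ : Fin m => μ) (Cov N k m) := by
  have := h.1
  have h1 : (1 - (N : ℝ≥0∞)⁻¹) < 1 :=
    ENNReal.sub_lt_self ENNReal.one_ne_top one_ne_zero (by simp)
  have h2 := ENNReal.Tendsto.const_mul (a := (N : ℝ≥0∞))
    (ENNReal.tendsto_pow_atTop_nhds_zero_of_lt_one h1) (Or.inr (by simp))
  rw [mul_zero] at h2
  obtain ⟨m, hm⟩ := (h2.eventually (ge_mem_nhds (a := (2⁻¹ : ℝ≥0∞)) (by simp))).exists
  refine ⟨m, ?_⟩
  have h3 : Measure.pi (fun _ : Fin m => μ) (Cov N k m)ᶜ ≤ 2⁻¹ := by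
    refine le_trans ?_ hm
    have : (Cov N k m)ᶜ ⊆ ⋃ v ∈ (Finset.univ : Finset (Fin N)),
        Set.pi univ (fun _ : Fin m => {ω : ℕ → Fin N | ω 0 = v}ᶜ) := by
      intro ω hω
      obtain ⟨v, hv⟩ := not_forall.1 hω
      simp only [mem_iUnion]
      exact ⟨v, Finset.mem_univ v, fun j _ e => hv ⟨j, 0, Nat.zero_le k, e⟩⟩
    refine (measure_mono this).trans ((measure_biUnion_finset_le _ _).trans ?_)
    have e : ∀ v, μ {ω : ℕ → Fin N | ω 0 = v}ᶜ = 1 - (N : ℝ≥0∞)⁻¹ := fun v => by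
      rw [← h.2.1 v]
      exact prob_compl_eq_one_sub
        (measurable_pi_apply (X := fun _ : ℕ => Fin N) 0 (measurableSet_singleton v))
    simp [Measure.pi_pi, e]
  rw [prob_compl_eq_one_sub (mCov N k m), tsub_le_iff_left] at h3
  have h4 : (1 : ℝ≥0∞) - 2⁻¹ = 2⁻¹ := ENNReal.one_sub_inv_two
  rw [← h4]
  exact tsub_le_iff_right.2 h3

lemma pick {N : ℕ} {G : SimpleGraph (Fin N)} {μ : Measure (ℕ → Fin N)} (h : IsSRW G μ)
    (hc : G.Connected) (htr : ∀ u v, ∃ φ : G ≃g G, φ v = u) (k : ℕ) :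
    ∃ m, N ≤ 2 * (k + 1) * m ∧ 2⁻¹ ≤ Measure.pi (fun _ : Fin m => μ) (Cov N k m) ∧
      Measure.pi (fun _ : Fin m => μ) (Cov N k m) ≤ 2⁻¹ + (k + 1 : ℝ≥0∞) / N := by
  obtain ⟨v⟩ := hc.nonempty
  have h0 : Cov N k 0 = ∅ := by
    ext ω
    simp only [Cov, mem_ofPred_eq, mem_empty_iff_false, iff_false]
    intro hω
    obtain ⟨j, -⟩ := hω v
    exact j.elim0
  have hlin : ∀ m : ℕ, Measure.pi (fun _ : Fin m => μ) (Cov N k m) ≤
      m * ((k + 1 : ℝ≥0∞) / N) := by
    intro m
    induction m with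
    | zero => simp [h0]
    | succ m ih =>
      refine (inc h htr k m).trans ?_
      rw [Nat.cast_succ, add_mul, one_mul]
      exact add_le_add_left ih _
  have hb := big h k
  refine ⟨Nat.find hb, ?_, Nat.find_spec hb, ?_⟩
  · have h1 := (Nat.find_spec hb).trans (hlin _)
    have hN : (N : ℝ≥0∞) ≠ 0 := by have := v.pos; simp; omega
    rw [← mul_div_assoc, ENNReal.le_div_iff_mul_le (Or.inl hN) (Or.inl (by simp)),
      ← ENNReal.div_eq_inv_mul, ENNReal.div_le_iff (by simp) (by simp)] at h1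
    have : N ≤ Nat.find hb * (k + 1) * 2 := by exact_mod_cast h1
    nlinarith
  · have hpos : Nat.find hb ≠ 0 := by
      intro e
      have := Nat.find_spec hb
      rw [e, h0] at this
      simp at this
    obtain ⟨m, hm⟩ := Nat.exists_eq_succ_of_ne_zero hpos
    have := Nat.find_min hb (m := m) (by omega)
    rw [hm]
    exact (inc h htr k m).trans (add_le_add_left (not_le.1 this).le _)

theorem result (N : ℕ → ℕ) (G : ∀ n, SimpleGraph (Fin (N n)))
    (μ : ∀ n, Measure (ℕ → Fin (N n))) (hN : Tendsto N atTop atTop)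
    (hc : ∀ n, (G n).Connected) (htr : ∀ n u v, ∃ φ : G n ≃g G n, φ v = u)
    (hμ : ∀ n, IsSRW (G n) (μ n)) (k : ℕ) :
    ∃ m : ℕ → ℕ, Tendsto m atTop atTop ∧ ∀ n,
      2⁻¹ ≤ Measure.pi (fun _ : Fin (m n) => μ n) {ω | D ω ≤ k} ∧
      Measure.pi (fun _ : Fin (m n) => μ n) {ω | D ω ≤ k} ≤ 2⁻¹ + (k + 1 : ℝ≥0∞) / N n ∧
      ∀ c : ℝ, Measure.pi (fun _ : Fin (m n) => μ n)
        {ω | ∃ t : ℕ, D ω = t ∧ |t / c - 1| < 1 / (2 * k + 1)} ≤
          2⁻¹ + (k + 1 : ℝ≥0∞) / N n := by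
  choose m h1 h2 h3 using fun n => pick (hμ n) (hc n) (htr n) k
  refine ⟨m, ?_, fun n => ?_⟩
  · rw [tendsto_atTop] at hN ⊢
    intro b
    filter_upwards [hN (2 * (k + 1) * b)] with n hn
    exact Nat.le_of_mul_le_mul_left (hn.trans (h1 n)) (by omega)
  · have e : {ω : Fin (m n) → ℕ → Fin (N n) | D ω ≤ k} = Cov (N n) k (m n) := by
      ext ω; exact D_le ω k
    rw [e]
    refine ⟨h2 n, h3 n, fun c => ?_⟩
    have := (hμ n).1
    by_cases hA : ∃ t : ℕ, k < t ∧ |t / c - 1| < 1 / (2 * k + 1)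
    · obtain ⟨t, ht, hc1⟩ := hA
      refine le_trans ?_ le_self_add
      refine (measure_mono (t := (Cov (N n) k (m n))ᶜ) ?_).trans ?_
      · rintro ω ⟨s, hs, hc2⟩ hω
        have := (D_le ω k).2 hω
        rw [hs, Nat.cast_le] at this
        have hk : (0 : ℝ) ≤ k := Nat.cast_nonneg k
        have hs' : (s : ℝ) ≤ k := by exact_mod_cast this
        have ht' : (k : ℝ) + 1 ≤ t := by exact_mod_cast ht
        have hs0 : (0 : ℝ) ≤ s := Nat.cast_nonneg s
        rw [lt_div_iff₀ (by positivity), ← abs_of_pos (by positivity : (0 : ℝ) < 2 * k + 1),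
          ← abs_mul, abs_lt, div_eq_mul_inv] at hc1 hc2
        rcases le_or_gt c⁻¹ 0 with hu | hu
        · nlinarith [hc2.1, mul_nonneg hs0 (neg_nonneg.2 hu)]
        · have a1 : (k : ℝ) * c⁻¹ * (2 * k + 1) > 2 * k := by
            nlinarith [hc2.1, mul_le_mul_of_nonneg_right hs' hu.le]
          have a2 : ((k : ℝ) + 1) * c⁻¹ * (2 * k + 1) < 2 * k + 2 := by
            nlinarith [hc1.2, mul_le_mul_of_nonneg_right ht' hu.le]
          nlinarith
      · rw [prob_compl_eq_one_sub (mCov _ _ _), ← ENNReal.one_sub_inv_two]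
        exact tsub_le_tsub_left (h2 n) _
    · refine (measure_mono ?_).trans (h3 n)
      rintro ω ⟨s, hs, hc2⟩
      refine (D_le ω k).1 ?_
      rw [hs, Nat.cast_le]
      by_contra hlt
      exact hA ⟨s, not_le.1 hlt, hc2⟩

end Pool.Agent.Results.MP_4d31e4_pr.Q2No
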